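import Mathlib

/-!
# `ℓ^∞` has no equivalent locally uniformly convex norm
-/

set_option autoImplicit false

open scoped ENNReal Topology
open Filter

namespace Pool.Agent.Run7.h828.LinfLUR

/-- real `ℓ^∞(ℕ)` -/
abbrev L : Type := lp (fun _ : ℕ => ℝ) ∞

/-- a bounded sequence as an element of `ℓ^∞` -/
noncomputable def mk (f : ℕ → ℝ) (M : ℝ) (hf : ∀ i, |f i| ≤ M) : L :=
  ⟨f, memℓp_infty ⟨M, by rintro _ ⟨i, rfl⟩; exact hf i⟩⟩

lemma mk_apply (f : ℕ → ℝ) (M : ℝ) (hf : ∀ i, |f i| ≤ M) (i : ℕ) : mk f M hf i = f i := rfl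

lemma norm_le {x : L} {M : ℝ} (hM : 0 ≤ M) (h : ∀ i, |x i| ≤ M) : ‖x‖ ≤ M :=
  lp.norm_le_of_forall_le hM h

lemma abs_le_norm (x : L) (i : ℕ) : |x i| ≤ ‖x‖ :=
  lp.norm_apply_le_norm ENNReal.top_ne_zero x i

/-- the feasible increments: norm at most one and supported in `A` -/
def Feas (A : Set ℕ) : Set L := {y | (∀ i, |y i| ≤ 1) ∧ ∀ i, i ∉ A → y i = 0}

/-- restriction to the complement of `D` -/
noncomputable def cut (y : L) (D : Set ℕ) : L := by
  classical
  exact mk (fun i => if i ∈ D then 0 else y i) ‖y‖ fun i => by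
    split_ifs
    · simp
    · exact abs_le_norm y i

lemma cut_apply_mem (y : L) (D : Set ℕ) (i : ℕ) (h : i ∈ D) : cut y D i = 0 := by
  classical
  change (if i ∈ D then (0 : ℝ) else y i) = 0
  rw [if_pos h]

lemma cut_apply_notMem (y : L) (D : Set ℕ) (i : ℕ) (h : i ∉ D) : cut y D i = y i := by
  classical
  change (if i ∈ D then (0 : ℝ) else y i) = y i
  rw [if_neg h]

variable (p : Seminorm ℝ L)

/-- the supremum of `p` over `x + Feas A` -/
noncomputable def sup (x : L) (A : Set ℕ) : ℝ := sSup ((fun y => p (x + y)) '' Feas A)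

variable {p}

lemma bdd {C : ℝ} (hC : ∀ v, p v ≤ C * ‖v‖) (hC0 : 0 ≤ C) (x : L) (A : Set ℕ) :
    BddAbove ((fun y => p (x + y)) '' Feas A) := by
  refine ⟨p x + C, ?_⟩
  rintro _ ⟨y, hy, rfl⟩
  have h1 : ‖y‖ ≤ 1 := norm_le zero_le_one hy.1
  have h2 := map_add_le_add p x y
  have h3 := hC y
  have h4 : C * ‖y‖ ≤ C * 1 := mul_le_mul_of_nonneg_left h1 hC0
  change p (x + y) ≤ _
  linarith

lemma le_sup {C : ℝ} (hC : ∀ v, p v ≤ C * ‖v‖) (hC0 : 0 ≤ C) (x : L) {A : Set ℕ} {y : L}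
    (hy : y ∈ Feas A) : p (x + y) ≤ sup p x A :=
  le_csSup (bdd hC hC0 x A) ⟨y, hy, rfl⟩

lemma zero_feas (A : Set ℕ) : (0 : L) ∈ Feas A := by
  constructor
  · intro i
    simp
  · intro i _
    simp

/-- one step of the construction -/
lemma step {C : ℝ} (hC : ∀ v, p v ≤ C * ‖v‖) (hC0 : 0 ≤ C) (x : L) (A : Set ℕ)
    (hA : A.Infinite) (ε : ℝ) (hε : 0 < ε) :
    ∃ (y : L) (A' : Set ℕ), y ∈ Feas A ∧ A'.Infinite ∧ A' ⊆ A ∧ (∀ i ∈ A', y i = 0) ∧
      (∃ k, |y k| = 1) ∧ sup p x A - ε ≤ p (x + y) := by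
  classical
  have hne : ((fun y => p (x + y)) '' Feas A).Nonempty := ⟨_, 0, zero_feas A, rfl⟩
  obtain ⟨_, ⟨y₀, hy₀, rfl⟩, h1⟩ := exists_lt_of_lt_csSup hne
    (show sSup ((fun y => p (x + y)) '' Feas A) - ε / 2 < sSup _ by linarith)
  change sup p x A - ε / 2 < p (x + y₀) at h1
  obtain ⟨k, hk⟩ := hA.nonempty
  -- set the coordinate `k` to `± 1`
  have hb : ∀ r : ℝ, |r| ≤ 1 → ∀ i, |(if i = k then r else y₀ i)| ≤ 1 := by
    intro r hr i
    split_ifs
    · exact hr
    · exact hy₀.1 i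
  set q : ∀ r : ℝ, |r| ≤ 1 → L := fun r hr => mk (fun i => if i = k then r else y₀ i) 1 (hb r hr)
    with hq
  have hqf : ∀ r hr, q r hr ∈ Feas A := by
    intro r hr
    refine ⟨hb r hr, fun i hi => ?_⟩
    change (if i = k then r else y₀ i) = 0
    rw [if_neg (by rintro rfl; exact hi hk)]
    exact hy₀.2 i hi
  obtain ⟨y₁, hy₁f, hy₁k, h2⟩ : ∃ y₁ : L, y₁ ∈ Feas A ∧ |y₁ k| = 1 ∧
      sup p x A - ε / 2 < p (x + y₁) := by
    by_contra hcon
    push Not at hcon
    have o1 : |(1 : ℝ)| ≤ 1 := by simp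
    have o2 : |(-1 : ℝ)| ≤ 1 := by simp
    have a1 : p (x + q 1 o1) ≤ sup p x A - ε / 2 := by
      refine hcon (q 1 o1) (hqf 1 o1) ?_
      change |(if k = k then (1 : ℝ) else y₀ k)| = 1
      simp
    have a2 : p (x + q (-1) o2) ≤ sup p x A - ε / 2 := by
      refine hcon (q (-1) o2) (hqf (-1) o2) ?_
      change |(if k = k then (-1 : ℝ) else y₀ k)| = 1
      simp
    set t : ℝ := (1 + y₀ k) / 2 with ht
    have hyk := abs_le.1 (hy₀.1 k)
    have ht0 : 0 ≤ t := by rw [ht]; linarith [hyk.1]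
    have ht1 : 0 ≤ 1 - t := by rw [ht]; linarith [hyk.2]
    have e1 : x + y₀ = t • (x + q 1 o1) + (1 - t) • (x + q (-1) o2) := by
      apply lp.ext
      funext i
      have b1 : (q 1 o1 : L) i = if i = k then (1 : ℝ) else y₀ i := rfl
      have b2 : (q (-1) o2 : L) i = if i = k then (-1 : ℝ) else y₀ i := rfl
      simp only [lp.coeFn_add, lp.coeFn_smul, Pi.add_apply, Pi.smul_apply, smul_eq_mul, b1, b2]
      by_cases hi : i = k
      · subst hi
        rw [if_pos rfl, if_pos rfl, ht]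
        ring
      · rw [if_neg hi, if_neg hi]
        ring
    have e2 : p (x + y₀) ≤ t * p (x + q 1 o1) + (1 - t) * p (x + q (-1) o2) := by
      rw [e1]
      refine (map_add_le_add p _ _).trans ?_
      rw [map_smul_eq_mul, map_smul_eq_mul, Real.norm_eq_abs, Real.norm_eq_abs,
        abs_of_nonneg ht0, abs_of_nonneg ht1]
    have e3 := mul_le_mul_of_nonneg_left a1 ht0
    have e4 := mul_le_mul_of_nonneg_left a2 ht1
    have e5 : t * (sup p x A - ε / 2) + (1 - t) * (sup p x A - ε / 2) = sup p x A - ε / 2 := by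
      ring
    linarith
  -- split `A \ {k}` into `n` disjoint infinite sets
  have hAk : (A \ {k}).Infinite := hA.sdiff (Set.finite_singleton k)
  obtain ⟨n, hn⟩ := exists_nat_gt (2 * C / ε)
  have hn0 : 0 < n := by
    rcases Nat.eq_zero_or_pos n with h | h
    · subst h
      have : 0 ≤ 2 * C / ε := by positivity
      simp at hn
      linarith
    · exact h
  let e : ℕ → ℕ := fun m => Nat.nth (· ∈ A \ {k}) m
  have he : StrictMono e := Nat.nth_strictMono hAk
  have heA : ∀ m, e m ∈ A \ {k} := fun m => Nat.nth_mem_of_infinite hAk m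
  let D : ℕ → Set ℕ := fun j => {i | ∃ m, m % n = j ∧ e m = i}
  have hDinf : ∀ j < n, (D j).Infinite := by
    intro j hj
    have : (Set.range fun m => e (m * n + j)).Infinite := by
      apply Set.infinite_range_of_injective
      intro m m' h
      have := he.injective h
      have h3 : m * n = m' * n := by omega
      exact Nat.eq_of_mul_eq_mul_right hn0 h3
    refine this.mono ?_
    rintro _ ⟨m, rfl⟩
    refine ⟨m * n + j, ?_, rfl⟩
    rw [mul_comm, Nat.mul_add_mod, Nat.mod_eq_of_lt hj]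
  have hDA : ∀ j, D j ⊆ A \ {k} := by
    rintro j _ ⟨m, _, rfl⟩
    exact heA m
  have hDdisj : ∀ i j j', i ∈ D j → i ∈ D j' → j = j' := by
    rintro i j j' ⟨m, rfl, rfl⟩ ⟨m', rfl, h⟩
    rw [he.injective h]
  -- one of the sets can be cut out
  obtain ⟨j, hj, h3⟩ : ∃ j < n, sup p x A - ε ≤ p (x + cut y₁ (D j)) := by
    by_contra hcon
    push Not at hcon
    have f1 : ∑ j ∈ Finset.range n, p (x + cut y₁ (D j)) ≤ n * (sup p x A - ε) := by
      calc ∑ j ∈ Finset.range n, p (x + cut y₁ (D j))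
          ≤ ∑ j ∈ Finset.range n, (sup p x A - ε) :=
            Finset.sum_le_sum fun j hj => (hcon j (Finset.mem_range.1 hj)).le
        _ = n * (sup p x A - ε) := by rw [Finset.sum_const, Finset.card_range, nsmul_eq_mul]
    -- the sum of the parts
    set w : L := ∑ j ∈ Finset.range n, (y₁ - cut y₁ (D j)) with hw
    have hwi : ∀ i, |w i| ≤ 1 := by
      intro i
      have g1 : w i = ∑ j ∈ Finset.range n, (y₁ i - cut y₁ (D j) i) := by
        rw [hw, lp.coeFn_sum, Finset.sum_apply]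
        rfl
      rw [g1]
      by_cases hi : ∃ j ∈ Finset.range n, i ∈ D j
      · obtain ⟨j, hj, hij⟩ := hi
        rw [Finset.sum_eq_single j]
        · rw [cut_apply_mem _ _ _ hij, sub_zero]
          exact hy₁f.1 i
        · intro j' _ hne
          rw [cut_apply_notMem _ _ _ (fun h => hne (hDdisj i j' j h hij)), sub_self]
        · intro h
          exact absurd hj h
      · push Not at hi
        rw [Finset.sum_eq_zero]
        · simp
        · intro j hj
          rw [cut_apply_notMem _ _ _ (hi j hj), sub_self]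
    have hwn : ‖w‖ ≤ 1 := norm_le zero_le_one hwi
    have f2 : (n : ℝ) • (x + y₁) = ∑ j ∈ Finset.range n, (x + cut y₁ (D j)) + w := by
      rw [hw, ← Finset.sum_add_distrib]
      have : ∀ j ∈ Finset.range n, x + cut y₁ (D j) + (y₁ - cut y₁ (D j)) = x + y₁ := by
        intro j _
        abel
      rw [Finset.sum_congr rfl this, Finset.sum_const, Finset.card_range, Nat.cast_smul_eq_nsmul]
    have f3 : n * p (x + y₁) ≤ ∑ j ∈ Finset.range n, p (x + cut y₁ (D j)) + C := by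
      have g1 : n * p (x + y₁) = p ((n : ℝ) • (x + y₁)) := by
        rw [map_smul_eq_mul]
        simp
      rw [g1, f2]
      refine (map_add_le_add p _ _).trans ?_
      have g2 : p (∑ j ∈ Finset.range n, (x + cut y₁ (D j))) ≤
          ∑ j ∈ Finset.range n, p (x + cut y₁ (D j)) := by
        exact Finset.le_sum_of_subadditive p (map_zero p).le (map_add_le_add p) _ _
      have g3 : p w ≤ C := (hC w).trans (by
        have := mul_le_mul_of_nonneg_left hwn hC0
        linarith)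
      linarith
    have f4 : (n : ℝ) * (sup p x A - ε / 2) < n * p (x + y₁) :=
      mul_lt_mul_of_pos_left h2 (by exact_mod_cast hn0)
    rw [div_lt_iff₀ hε] at hn
    nlinarith
  refine ⟨cut y₁ (D j), D j, ⟨fun i => ?_, fun i hi => ?_⟩, hDinf j hj,
    fun i hi => (hDA j hi).1, fun i hi => cut_apply_mem _ _ _ hi, ⟨k, ?_⟩, h3⟩
  · by_cases h : i ∈ D j
    · rw [cut_apply_mem _ _ _ h]
      simp
    · rw [cut_apply_notMem _ _ _ h]
      exact hy₁f.1 i
  · rw [cut_apply_notMem _ _ _ (fun h => hi (hDA j h).1)]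
    exact hy₁f.2 i hi
  · rw [cut_apply_notMem _ _ _ (fun h => (hDA j h).2 rfl)]
    exact hy₁k

/-- the data at a stage: the vector and the free set -/
structure St where
  /-- the vector -/
  x : L
  /-- the free set -/
  A : Set ℕ
  inf : A.Infinite

/-- the sequences -/
lemma sequences {C : ℝ} (hC : ∀ v, p v ≤ C * ‖v‖) (hC0 : 0 ≤ C) :
    ∃ (x y : ℕ → L) (A : ℕ → Set ℕ), x 0 = 0 ∧ (∀ n, x (n + 1) = x n + y n) ∧
      (∀ n, A (n + 1) ⊆ A n) ∧ (∀ n, y n ∈ Feas (A n)) ∧ (∀ n, ∀ i ∈ A (n + 1), y n i = 0) ∧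
      (∀ n, ∃ k, |y n k| = 1) ∧
      ∀ n : ℕ, sup p (x n) (A n) - 1 / ((n : ℝ) + 1) ≤ p (x n + y n) := by
  have hstep : ∀ (s : St) (n : ℕ), ∃ (y : L) (s' : St), s'.x = s.x + y ∧ y ∈ Feas s.A ∧
      s'.A ⊆ s.A ∧ (∀ i ∈ s'.A, y i = 0) ∧ (∃ k, |y k| = 1) ∧
      sup p s.x s.A - 1 / ((n : ℝ) + 1) ≤ p (s.x + y) := by
    intro s n
    obtain ⟨y, A', h1, h2, h3, h4, h5, h6⟩ :=
      step hC hC0 s.x s.A s.inf (1 / ((n : ℝ) + 1)) (by positivity)
    exact ⟨y, ⟨s.x + y, A', h2⟩, rfl, h1, h3, h4, h5, h6⟩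
  choose Y T h1 h2 h3 h4 h5 h6 using hstep
  let S : ℕ → St := fun n => Nat.rec ⟨0, Set.univ, Set.infinite_univ⟩ (fun n s => T s n) n
  exact ⟨fun n => (S n).x, fun n => Y (S n) n, fun n => (S n).A, rfl, fun n => h1 (S n) n,
    fun n => h3 (S n) n, fun n => h2 (S n) n, fun n => h4 (S n) n, fun n => h5 (S n) n,
    fun n => h6 (S n) n⟩

/-- the tails -/
lemma tails (y : ℕ → L) (A : ℕ → Set ℕ) (hAs : ∀ n, A (n + 1) ⊆ A n)
    (hyf : ∀ n, y n ∈ Feas (A n)) (hy0 : ∀ n, ∀ i ∈ A (n + 1), y n i = 0) :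
    ∃ Z : ℕ → L, (∀ n, Z n ∈ Feas (A n)) ∧ (∀ n, Z n = y n + Z (n + 1)) := by
  have hAmono : ∀ m n, m ≤ n → A n ⊆ A m := by
    intro m n h
    induction h with
    | refl => exact subset_rfl
    | step _ ih => exact (hAs _).trans ih
  -- the limit
  have hone : ∀ i m n, m < n → y n i ≠ 0 → y m i = 0 := by
    intro i m n hmn hn
    have h2 : i ∈ A n := by
      by_contra h
      exact hn ((hyf n).2 i h)
    exact hy0 m i (hAmono (m + 1) n hmn h2)
  -- the tails
  have htail : ∀ (n i : ℕ), ∃ r : ℝ, |r| ≤ 1 ∧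
      r = ∑' m, (if n ≤ m then y m i else 0) ∧ (i ∉ A n → r = 0) := by
    intro n i
    by_cases h : ∃ m, n ≤ m ∧ y m i ≠ 0
    · obtain ⟨m, hm, hmi⟩ := h
      refine ⟨y m i, (hyf m).1 i, ?_, fun hi => ?_⟩
      · rw [tsum_eq_single m]
        · rw [if_pos hm]
        · intro m' hne
          split_ifs with h3
          · rcases lt_or_gt_of_ne hne with h4 | h4
            · exact hone i m' m h4 hmi
            · by_contra h5
              exact hmi (hone i m m' h4 h5)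
          · rfl
      · exact (hyf m).2 i (fun h3 => hi (hAmono n m hm h3))
    · push Not at h
      refine ⟨0, by simp, ?_, fun _ => rfl⟩
      have : (fun m => if n ≤ m then y m i else 0) = fun _ => (0 : ℝ) := by
        funext m
        split_ifs with h3
        · exact h m h3
        · rfl
      rw [this, tsum_zero]
  choose z hz1 hz2 hz3 using htail
  refine ⟨fun n => mk (z n) 1 (hz1 n), fun n => ⟨hz1 n, hz3 n⟩, fun n => ?_⟩
  apply lp.ext
  funext i
  rw [lp.coeFn_add, Pi.add_apply]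
  change z n i = y n i + z (n + 1) i
  rw [hz2 n i, hz2 (n + 1) i]
  by_cases h : ∃ m, y m i ≠ 0
  · obtain ⟨m, hm⟩ := h
    have key : ∀ m', m' ≠ m → y m' i = 0 := by
      intro m' hne
      rcases lt_or_gt_of_ne hne with h4 | h4
      · exact hone i m' m h4 hm
      · by_contra h5
        exact hm (hone i m m' h4 h5)
    rw [tsum_eq_single m, tsum_eq_single m]
    · rcases lt_trichotomy n m with h4 | h4 | h4
      · rw [if_pos h4.le, if_pos (by omega), key n h4.ne, zero_add]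
      · subst h4
        rw [if_pos le_rfl, if_neg (by omega), add_zero]
      · rw [if_neg (by omega), if_neg (by omega), key n h4.ne', zero_add]
    · intro m' hne
      split_ifs
      · exact key m' hne
      · rfl
    · intro m' hne
      split_ifs
      · exact key m' hne
      · rfl
  · push Not at h
    simp [h]

/-- `ℓ^∞` has no equivalent locally uniformly convex norm -/
theorem no_lur (p : Seminorm ℝ L) (c C : ℝ) (hc : 0 < c) (hC0 : 0 ≤ C)
    (h1 : ∀ v, c * ‖v‖ ≤ p v) (hC : ∀ v, p v ≤ C * ‖v‖) :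
    ∃ (x : L) (u : ℕ → L), p x = 1 ∧ (∀ n, p (u n) = 1) ∧
      Tendsto (fun n => p (u n + x)) atTop (𝓝 2) ∧
      ¬ Tendsto (fun n => p (u n - x)) atTop (𝓝 0) := by
  obtain ⟨x, y, A, hx0, hx, hAs, hyf, hy0, hYk, hYs⟩ := sequences hC hC0
  obtain ⟨Z, hZf, hZstep⟩ := tails y A hAs hyf hy0
  obtain ⟨X, hX⟩ : ∃ X, X = Z 0 := ⟨_, rfl⟩
  have hXn : ∀ n, X = (x n) + Z n := by
    intro n
    induction n with
    | zero => rw [hx0, zero_add, hX]
    | succ n ih =>
      rw [hx, add_assoc, ← hZstep]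
      exact ih
  -- the numbers
  obtain ⟨s, hs⟩ : ∃ s : ℕ → ℝ, ∀ n, s n = sup p (x n) (A n) := ⟨_, fun _ => rfl⟩
  have hp1 : ∀ n, s n - 1 / ((n : ℝ) + 1) ≤ p (x (n + 1)) := fun n => by rw [hs, hx]; exact hYs n
  have hp2 : ∀ n, p (x n) ≤ s n := by
    intro n
    have := le_sup hC hC0 (x n) (zero_feas (A n))
    rwa [add_zero, ← hs] at this
  have hneg : ∀ n, -Z n ∈ Feas (A n) := by
    intro n
    refine ⟨fun i => ?_, fun i hi => ?_⟩
    · rw [lp.coeFn_neg, Pi.neg_apply, abs_neg]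
      exact (hZf n).1 i
    · rw [lp.coeFn_neg, Pi.neg_apply, (hZf n).2 i hi, neg_zero]
  have hsanti : ∀ n, s (n + 1) ≤ s n := by
    intro n
    rw [hs (n + 1)]
    refine csSup_le ⟨_, 0, zero_feas _, rfl⟩ ?_
    rintro _ ⟨w, hw, rfl⟩
    change p (x (n + 1) + w) ≤ s n
    rw [hx, add_assoc, hs n]
    refine le_sup hC hC0 (x n) ⟨fun i => ?_, fun i hi => ?_⟩
    · rw [lp.coeFn_add, Pi.add_apply]
      by_cases hi : i ∈ (A (n + 1))
      · rw [hy0 n i hi, zero_add]
        exact hw.1 i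
      · rw [hw.2 i hi, add_zero]
        exact (hyf n).1 i
    · rw [lp.coeFn_add, Pi.add_apply, (hyf n).2 i hi, hw.2 i (fun h => hi (hAs n h)), add_zero]
  have hX1 : ∀ n, p X ≤ s n := by
    intro n
    rw [hXn n, hs n]
    exact le_sup hC hC0 _ (hZf n)
  have hX2 : ∀ n, p (x n - Z n) ≤ s n := by
    intro n
    rw [sub_eq_add_neg, hs n]
    exact le_sup hC hC0 _ (hneg n)
  have hX3 : ∀ n, 2 * p (x n) - s n ≤ p X := by
    intro n
    have e : (2 : ℝ) • (x n) = X + (x n - Z n) := by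
      rw [hXn n, two_smul]
      abel
    have h3 : p ((2 : ℝ) • (x n)) = 2 * p (x n) := by
      rw [map_smul_eq_mul]
      simp
    have h4 := map_add_le_add p X (x n - Z n)
    rw [← e, h3] at h4
    linarith [hX2 n]
  have hX4 : ∀ n, 3 * p (x n) - s n ≤ p (x n + X) := by
    intro n
    have e : (3 : ℝ) • (x n) = (x n + X) + (x n - Z n) := by
      rw [hXn n]
      module
    have h3 : p ((3 : ℝ) • (x n)) = 3 * p (x n) := by
      rw [map_smul_eq_mul]
      simp
    have h4 := map_add_le_add p (x n + X) (x n - Z n)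
    rw [← e, h3] at h4
    linarith [hX2 n]
  have hX5 : ∀ n, c ≤ p (x n - X) := by
    intro n
    obtain ⟨k, hk⟩ := hYk n
    have hk' : |y n k| = 1 := hk
    have e : (x n) - X = -Z n := by
      rw [hXn n]
      abel
    have h3 : |Z n k| = 1 := by
      rw [hZstep n, lp.coeFn_add, Pi.add_apply]
      have : Z (n + 1) k = 0 := by
        refine (hZf (n + 1)).2 k (fun h => ?_)
        have := hy0 n k h
        rw [this] at hk'
        simp at hk'
      rw [this, add_zero]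
      exact hk'
    have h4 := abs_le_norm (Z n) k
    rw [h3] at h4
    rw [e, map_neg_eq_map]
    exact le_trans (by nlinarith) (h1 (Z n))
  -- the limit of `s`
  have hse : Tendsto (fun n : ℕ => 1 / ((n : ℝ) + 1)) atTop (𝓝 0) :=
    tendsto_one_div_add_atTop_nhds_zero_nat
  have hsn : ∀ n, s (n + 1) - 1 / ((n : ℝ) + 1) ≤ p (x (n + 1)) := fun n => by
    linarith [hp1 n, hsanti n]
  have hlow : ∀ n, s n - 2 * (1 / ((n : ℝ) + 1)) ≤ p X := by
    intro n
    have := hX3 (n + 1)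
    linarith [hp1 n, hsanti n]
  have hs1 : Tendsto s atTop (𝓝 (p X)) := by
    have h3 : Tendsto (fun n : ℕ => p X + 2 * (1 / ((n : ℝ) + 1))) atTop (𝓝 (p X + 2 * 0)) :=
      (hse.const_mul 2).const_add _
    rw [mul_zero, add_zero] at h3
    exact tendsto_of_tendsto_of_tendsto_of_le_of_le tendsto_const_nhds h3 hX1
      (fun n => by linarith [hlow n])
  have hs2 : Tendsto (fun n => s (n + 1)) atTop (𝓝 (p X)) :=
    hs1.comp (tendsto_add_atTop_nat 1)
  have hpn : Tendsto (fun n => p (x (n + 1))) atTop (𝓝 (p X)) := by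
    have h3 : Tendsto (fun n : ℕ => s (n + 1) - 1 / ((n : ℝ) + 1)) atTop (𝓝 (p X - 0)) :=
      hs2.sub hse
    rw [sub_zero] at h3
    exact tendsto_of_tendsto_of_tendsto_of_le_of_le h3 hs2 hsn (fun n => hp2 (n + 1))
  have hsum : Tendsto (fun n => p (x (n + 1) + X)) atTop (𝓝 (2 * p X)) := by
    have h3 : Tendsto (fun n => 3 * p (x (n + 1)) - s (n + 1)) atTop
        (𝓝 (3 * p X - p X)) := (hpn.const_mul 3).sub hs2
    have h4 : Tendsto (fun n => p (x (n + 1)) + p X) atTop (𝓝 (p X + p X)) :=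
      hpn.add_const _
    have e1 : 3 * p X - p X = 2 * p X := by ring
    have e2 : p X + p X = 2 * p X := by ring
    rw [e1] at h3
    rw [e2] at h4
    exact tendsto_of_tendsto_of_tendsto_of_le_of_le h3 h4 (fun n => hX4 (n + 1))
      (fun n => map_add_le_add p _ _)
  -- positivity
  have hxA : ∀ n, ∀ i ∈ A n, (x n) i = 0 := by
    intro n
    induction n with
    | zero =>
      intro i _
      rw [hx0]
      rfl
    | succ n ih =>
      intro i hi
      rw [hx, lp.coeFn_add, Pi.add_apply, ih i (hAs n hi), hy0 n i hi, add_zero]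
  have hppos : ∀ n, 0 < p (x (n + 1)) := by
    intro n
    obtain ⟨k, hk⟩ := hYk n
    have hk' : |y n k| = 1 := hk
    have hkA : k ∈ A n := by
      by_contra h
      have := (hyf n).2 k h
      rw [this] at hk'
      simp at hk'
    have hxk : |(x (n + 1)) k| = 1 := by
      rw [hx, lp.coeFn_add, Pi.add_apply, hxA n k hkA, zero_add]
      exact hk'
    have h4 := abs_le_norm (x (n + 1)) k
    rw [hxk] at h4
    have h5 := h1 (x (n + 1))
    nlinarith
  have hXpos : 0 < p X := by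
    have h3 := hX5 0
    have h4 : p (x 0 - X) = p X := by
      rw [hx0, zero_sub, map_neg_eq_map]
    rw [h4] at h3
    linarith
  -- normalisation
  set σ : ℝ := p X with hσ
  obtain ⟨τ, hτ⟩ : ∃ τ : ℕ → ℝ, ∀ n, τ n = p (x (n + 1)) := ⟨_, fun _ => rfl⟩
  have hτpos : ∀ n, 0 < τ n := fun n => by rw [hτ]; exact hppos n
  have hpn' : Tendsto τ atTop (𝓝 σ) := by
    have : τ = fun n => p (x (n + 1)) := funext hτ
    rw [this]
    exact hpn
  have hτσ : Tendsto (fun n => |1 - τ n * σ⁻¹|) atTop (𝓝 0) := by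
    have h3 : Tendsto (fun n => 1 - τ n * σ⁻¹) atTop (𝓝 (1 - σ * σ⁻¹)) :=
      tendsto_const_nhds.sub (hpn'.mul_const _)
    rw [mul_inv_cancel₀ hXpos.ne', sub_self] at h3
    have := h3.abs
    rwa [abs_zero] at this
  refine ⟨σ⁻¹ • X, fun n => (τ n)⁻¹ • (x (n + 1)), ?_, ?_, ?_, ?_⟩
  · rw [map_smul_eq_mul, Real.norm_eq_abs, abs_of_pos (inv_pos.2 hXpos), ← hσ,
      inv_mul_cancel₀ hXpos.ne']
  · intro n
    rw [map_smul_eq_mul, Real.norm_eq_abs, abs_of_pos (inv_pos.2 (hτpos n)), ← hτ n]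
    exact inv_mul_cancel₀ (hτpos n).ne'
  · have hd : ∀ n, |p ((τ n)⁻¹ • (x (n + 1)) + σ⁻¹ • X) - σ⁻¹ * p (x (n + 1) + X)| ≤
        |1 - τ n * σ⁻¹| := by
      intro n
      have h3 : σ⁻¹ * p (x (n + 1) + X) = p (σ⁻¹ • (x (n + 1) + X)) := by
        rw [map_smul_eq_mul, Real.norm_eq_abs, abs_of_pos (inv_pos.2 hXpos)]
      have h4 : ((τ n)⁻¹ • (x (n + 1)) + σ⁻¹ • X) - σ⁻¹ • (x (n + 1) + X) =
          ((τ n)⁻¹ - σ⁻¹) • (x (n + 1)) := by module
      rw [h3]
      refine (abs_sub_map_le_sub p _ _).trans ?_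
      rw [h4, map_smul_eq_mul, Real.norm_eq_abs]
      have h5 : |(τ n)⁻¹ - σ⁻¹| * p (x (n + 1)) = |1 - τ n * σ⁻¹| := by
        rw [← hτ n]
        nth_rewrite 2 [← abs_of_pos (hτpos n)]
        rw [← abs_mul, sub_mul, inv_mul_cancel₀ (hτpos n).ne', mul_comm σ⁻¹]
      exact h5.le
    have h6 : Tendsto (fun n => p ((τ n)⁻¹ • (x (n + 1)) + σ⁻¹ • X) -
        σ⁻¹ * p (x (n + 1) + X)) atTop (𝓝 0) :=
      squeeze_zero_norm (fun n => by rw [Real.norm_eq_abs]; exact hd n) hτσ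
    have h7 : Tendsto (fun n => σ⁻¹ * p (x (n + 1) + X)) atTop (𝓝 (σ⁻¹ * (2 * σ))) :=
      hsum.const_mul _
    have h8 := h6.add h7
    have e3 : 0 + σ⁻¹ * (2 * σ) = 2 := by
      field_simp
      ring
    rw [e3] at h8
    refine h8.congr fun n => ?_
    ring
  · intro hcon
    have hd : ∀ n, σ⁻¹ * c - |1 - τ n * σ⁻¹| ≤ p ((τ n)⁻¹ • (x (n + 1)) - σ⁻¹ • X) := by
      intro n
      have h3 : σ⁻¹ * p (x (n + 1) - X) = p (σ⁻¹ • (x (n + 1) - X)) := by
        rw [map_smul_eq_mul, Real.norm_eq_abs, abs_of_pos (inv_pos.2 hXpos)]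
      have h4 : σ⁻¹ • (x (n + 1) - X) = ((τ n)⁻¹ • (x (n + 1)) - σ⁻¹ • X) -
          ((τ n)⁻¹ - σ⁻¹) • (x (n + 1)) := by module
      have h5 : |(τ n)⁻¹ - σ⁻¹| * p (x (n + 1)) = |1 - τ n * σ⁻¹| := by
        rw [← hτ n]
        nth_rewrite 2 [← abs_of_pos (hτpos n)]
        rw [← abs_mul, sub_mul, inv_mul_cancel₀ (hτpos n).ne', mul_comm σ⁻¹]
      have h6 : p (σ⁻¹ • (x (n + 1) - X)) ≤ p ((τ n)⁻¹ • (x (n + 1)) - σ⁻¹ • X) +
          |1 - τ n * σ⁻¹| := by
        rw [h4]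
        refine (map_sub_le_add p _ _).trans ?_
        rw [map_smul_eq_mul, Real.norm_eq_abs]
        exact add_le_add_right h5.le _
      have h7 := mul_le_mul_of_nonneg_left (hX5 (n + 1)) (inv_pos.2 hXpos).le
      linarith
    have h8 : Tendsto (fun n => σ⁻¹ * c - |1 - τ n * σ⁻¹|) atTop (𝓝 (σ⁻¹ * c - 0)) :=
      tendsto_const_nhds.sub hτσ
    have h9 := le_of_tendsto_of_tendsto' h8 hcon hd
    have h10 : 0 < σ⁻¹ * c := mul_pos (inv_pos.2 hXpos) hc
    linarith

end Pool.Agent.Run7.h828.LinfLUR
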