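import Mathlib

/-!
# The second polynomial numerical index of a Banach space
-/

set_option autoImplicit false

namespace Pool.Agent.Run7.h828.PolyIndex

variable (𝕜 : Type*) [RCLike 𝕜] (X : Type*) [NormedAddCommGroup X] [NormedSpace 𝕜 X]

variable {𝕜 X} in
/-- The norm `sup {‖P x‖ : ‖x‖ = 1}` of the continuous `2`-homogeneous polynomial `P x = B (x, x)`,
where `B` is a continuous bilinear map `X × X → X`. -/
noncomputable def polyNorm (B : X →L[𝕜] X →L[𝕜] X) : ℝ :=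
  sSup {r : ℝ | ∃ x : X, ‖x‖ = 1 ∧ r = ‖B x x‖}

variable {𝕜 X} in
/-- The numerical radius `v(P) = sup {|f (P x)| : ‖x‖ = 1, ‖f‖ = 1, f x = 1}` of the continuous
`2`-homogeneous polynomial `P x = B (x, x)`; here `f` runs over the dual space of `X`. -/
noncomputable def numRadius (B : X →L[𝕜] X →L[𝕜] X) : ℝ :=
  sSup {r : ℝ | ∃ (x : X) (f : X →L[𝕜] 𝕜), ‖x‖ = 1 ∧ ‖f‖ = 1 ∧ f x = 1 ∧ r = ‖f (B x x)‖}

/-- The polynomial numerical index of order two, `n^(2)(X) = inf {v(P) : ‖P‖ = 1}`, the infimum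
being over all continuous `2`-homogeneous polynomials `P x = B (x, x)` from `X` to `X`. -/
noncomputable def index2 : ℝ :=
  sInf {r : ℝ | ∃ B : X →L[𝕜] X →L[𝕜] X, polyNorm B = 1 ∧ r = numRadius B}

variable {𝕜 X}

lemma bdd_polyNorm (B : X →L[𝕜] X →L[𝕜] X) :
    BddAbove {r : ℝ | ∃ x : X, ‖x‖ = 1 ∧ r = ‖B x x‖} := by
  refine ⟨‖B‖, ?_⟩
  rintro r ⟨x, hx, rfl⟩
  have := B.le_opNorm₂ x x
  rw [hx] at this
  simpa using this

lemma bdd_numRadius (B : X →L[𝕜] X →L[𝕜] X) :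
    BddAbove {r : ℝ | ∃ (x : X) (f : X →L[𝕜] 𝕜), ‖x‖ = 1 ∧ ‖f‖ = 1 ∧ f x = 1 ∧
      r = ‖f (B x x)‖} := by
  refine ⟨‖B‖, ?_⟩
  rintro r ⟨x, f, hx, hf, -, rfl⟩
  have h1 := B.le_opNorm₂ x x
  have h2 := f.le_opNorm (B x x)
  rw [hx] at h1
  rw [hf] at h2
  simp only [mul_one, one_mul] at h1 h2
  exact h2.trans h1

lemma numRadius_nonneg (B : X →L[𝕜] X →L[𝕜] X) : 0 ≤ numRadius B := by
  apply Real.sSup_nonneg
  rintro r ⟨x, f, -, -, -, rfl⟩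
  exact norm_nonneg _

/-- if `f` has norm at most one and attains it at `z` -/
lemma le_numRadius (B : X →L[𝕜] X →L[𝕜] X) (f : X →L[𝕜] 𝕜) (hf : ‖f‖ ≤ 1) (z : X)
    (hz : f z = (‖z‖ : ℝ)) : ‖f (B z z)‖ ≤ numRadius B * ‖z‖ ^ 2 := by
  by_cases h0 : z = 0
  · simp [h0]
  · have hn : ‖z‖ ≠ 0 := norm_ne_zero_iff.2 h0
    have hpos : 0 < ‖z‖ := norm_pos_iff.2 h0
    set c : 𝕜 := ((‖z‖⁻¹ : ℝ) : 𝕜) with hc
    have hcn : ‖c‖ = ‖z‖⁻¹ := by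
      rw [hc, RCLike.norm_ofReal, abs_of_pos (inv_pos.2 hpos)]
    have hx : ‖c • z‖ = 1 := by
      rw [norm_smul, hcn, inv_mul_cancel₀ hn]
    have hfx : f (c • z) = 1 := by
      rw [map_smul, hz, smul_eq_mul, hc, ← RCLike.ofReal_mul, inv_mul_cancel₀ hn,
        RCLike.ofReal_one]
    have hf1 : ‖f‖ = 1 := by
      refine le_antisymm hf ?_
      have := f.le_opNorm (c • z)
      rw [hfx, hx] at this
      simpa using this
    have h1 : ‖f (B (c • z) (c • z))‖ ≤ numRadius B :=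
      le_csSup (bdd_numRadius B) ⟨c • z, f, hx, hf1, hfx, rfl⟩
    have h2 : f (B (c • z) (c • z)) = c * (c * f (B z z)) := by
      simp only [map_smul, smul_apply, smul_eq_mul]
    rw [h2, norm_mul, norm_mul, hcn] at h1
    have h3 : ‖f (B z z)‖ = (‖z‖⁻¹ * (‖z‖⁻¹ * ‖f (B z z)‖)) * ‖z‖ ^ 2 := by
      field_simp
    rw [h3]
    exact mul_le_mul_of_nonneg_right h1 (by positivity)

/-- if all `‖B x x‖` are at most `2 v(P)`, the index is at least `1 / 2` -/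
lemma half_le_index2 (hne : ∃ B : X →L[𝕜] X →L[𝕜] X, polyNorm B = 1)
    (h : ∀ (B : X →L[𝕜] X →L[𝕜] X) (x : X), ‖x‖ = 1 → ‖B x x‖ ≤ 2 * numRadius B) :
    1 / 2 ≤ index2 𝕜 X := by
  unfold index2
  obtain ⟨B₀, hB₀⟩ := hne
  refine le_csInf ⟨_, B₀, hB₀, rfl⟩ ?_
  rintro r ⟨B, hB, rfl⟩
  have h1 : polyNorm B ≤ 2 * numRadius B := by
    refine Real.sSup_le ?_ (by have := numRadius_nonneg B; linarith)
    rintro r ⟨x, hx, rfl⟩
    exact h B x hx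
  linarith

lemma index2_le {c : ℝ} (hc : 0 ≤ c) (B : X →L[𝕜] X →L[𝕜] X) (hB : polyNorm B = 1)
    (h : ∀ (x : X) (f : X →L[𝕜] 𝕜), ‖x‖ = 1 → ‖f‖ = 1 → f x = 1 → ‖f (B x x)‖ ≤ c) :
    index2 𝕜 X ≤ c := by
  unfold index2
  have h1 : numRadius B ≤ c := by
    refine Real.sSup_le ?_ hc
    rintro r ⟨x, f, h1, h2, h3, rfl⟩
    exact h x f h1 h2 h3
  have h2 : BddBelow {r : ℝ | ∃ B : X →L[𝕜] X →L[𝕜] X, polyNorm B = 1 ∧ r = numRadius B} := by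
    refine ⟨0, ?_⟩
    rintro r ⟨B, -, rfl⟩
    exact numRadius_nonneg B
  exact (csInf_le h2 ⟨B, hB, rfl⟩).trans h1

lemma polyNorm_eq_one (B : X →L[𝕜] X →L[𝕜] X) (h1 : ∀ x : X, ‖x‖ = 1 → ‖B x x‖ ≤ 1)
    (x : X) (hx : ‖x‖ = 1) (h2 : 1 ≤ ‖B x x‖) : polyNorm B = 1 := by
  apply le_antisymm
  · refine Real.sSup_le ?_ zero_le_one
    rintro r ⟨x, hx, rfl⟩
    exact h1 x hx
  · exact h2.trans (le_csSup (bdd_polyNorm B) ⟨x, hx, rfl⟩)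

end Pool.Agent.Run7.h828.PolyIndex
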