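import Pool.Agent.Run7.h828.PolyIndex

/-!
# The second polynomial numerical index of real `C(K)`
-/

set_option autoImplicit false

namespace Pool.Agent.Run7.h828.PolyIndex

open ContinuousMap

variable {K : Type*} [TopologicalSpace K] [CompactSpace K]

/-- `f ↦ f (s) - f / 2` -/
noncomputable def opT (s : K) : C(K, ℝ) →L[ℝ] C(K, ℝ) :=
  (evalCLM ℝ s).smulRight (1 : C(K, ℝ)) - (1 / 2 : ℝ) • ContinuousLinearMap.id ℝ C(K, ℝ)

/-- `(x, y) ↦ (x y)(s) - x y / 2` -/
noncomputable def bilT (s : K) : C(K, ℝ) →L[ℝ] C(K, ℝ) →L[ℝ] C(K, ℝ) :=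
  (ContinuousLinearMap.compL ℝ C(K, ℝ) C(K, ℝ) C(K, ℝ) (opT s)).comp
    (ContinuousLinearMap.mul ℝ C(K, ℝ))

lemma bilT_apply (s : K) (x : C(K, ℝ)) :
    bilT s x x = (x s * x s) • (1 : C(K, ℝ)) - (1 / 2 : ℝ) • (x * x) := by
  ext t
  simp [bilT, opT, evalCLM]

lemma polyNorm_bilT [T2Space K] [Nontrivial K] (s : K) : polyNorm (bilT s) = 1 := by
  obtain ⟨t, ht⟩ := exists_ne s
  obtain ⟨f, h0, h1, h01⟩ := exists_continuous_zero_one_of_isClosed
    (isClosed_singleton (x := t)) (isClosed_singleton (x := s)) (by simpa using ht)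
  have hfs : f s = 1 := h1 rfl
  have hft : f t = 0 := h0 rfl
  have hn : ‖f‖ = 1 := by
    apply le_antisymm
    · rw [norm_le _ zero_le_one]
      intro x
      rw [Real.norm_eq_abs, abs_of_nonneg (h01 x).1]
      exact (h01 x).2
    · have := f.norm_coe_le_norm s
      rw [hfs] at this
      simpa using this
  refine polyNorm_eq_one _ ?_ f hn ?_
  · intro x hx
    rw [norm_le _ zero_le_one]
    intro y
    rw [bilT_apply]
    have h1 := x.norm_coe_le_norm s
    have h2 := x.norm_coe_le_norm y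
    rw [hx, Real.norm_eq_abs] at h1 h2
    simp only [coe_sub, coe_smul, coe_mul, coe_one, Pi.sub_apply, Pi.smul_apply, Pi.mul_apply,
      Pi.one_apply, smul_eq_mul, mul_one, Real.norm_eq_abs]
    rw [abs_le] at h1 h2 ⊢
    have e1 : x s * x s ≤ 1 := by nlinarith
    have e2 : x y * x y ≤ 1 := by nlinarith
    have e3 := mul_self_nonneg (x s)
    have e4 := mul_self_nonneg (x y)
    constructor <;> linarith
  · have h3 := (bilT s f f).norm_coe_le_norm t
    have e : bilT s f f t = 1 := by
      rw [bilT_apply]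
      simp [hft, hfs]
    rw [e, norm_one] at h3
    exact h3

lemma numRadius_bilT_le (s : K) (x : C(K, ℝ)) (f : C(K, ℝ) →L[ℝ] ℝ) (hx : ‖x‖ = 1)
    (hf : ‖f‖ = 1) (hfx : f x = 1) : ‖f (bilT s x x)‖ ≤ 1 / 2 := by
  have hxt : ∀ t, |x t| ≤ 1 := fun t => by
    have := x.norm_coe_le_norm t
    rwa [hx, Real.norm_eq_abs] at this
  set u : C(K, ℝ) := 1 - x * x with hu
  have key : ∀ c : ℝ, |c| = 1 / 2 → c * f u ≤ 0 := by
    intro c hc
    have h1 : ‖x + c • u‖ ≤ 1 := by
      rw [norm_le _ zero_le_one]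
      intro t
      have h2 := hxt t
      simp only [hu, coe_add, coe_smul, coe_sub, coe_one, coe_mul, Pi.add_apply, Pi.smul_apply,
        Pi.sub_apply, Pi.one_apply, Pi.mul_apply, smul_eq_mul, Real.norm_eq_abs]
      have h3 : |x t + c * (1 - x t * x t)| ≤ |x t| + |c| * |1 - x t * x t| := by
        rw [← abs_mul]
        exact abs_add_le _ _
      have h4 : |1 - x t * x t| = 1 - |x t| * |x t| := by
        rw [abs_mul_abs_self, abs_of_nonneg]
        have := abs_mul_abs_self (x t)
        nlinarith [abs_nonneg (x t)]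
      rw [hc, h4] at h3
      nlinarith [abs_nonneg (x t)]
    have h2 : f (x + c • u) ≤ 1 := by
      have h3 := f.le_opNorm (x + c • u)
      rw [hf, one_mul] at h3
      exact (le_abs_self _).trans (h3.trans h1)
    rw [map_add, hfx, map_smul, smul_eq_mul] at h2
    linarith
  have hfu : f u = 0 := by
    have h1 := key (1 / 2) (by norm_num)
    have h2 := key (-(1 / 2)) (by norm_num)
    linarith
  have h1 : f (x * x) = f 1 := by
    rw [hu, map_sub] at hfu
    linarith
  have h2 : |f 1| ≤ 1 := by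
    have h3 := f.le_opNorm 1
    have h4 : ‖(1 : C(K, ℝ))‖ ≤ 1 := by
      rw [norm_le _ zero_le_one]
      intro t
      simp
    rw [hf, one_mul, Real.norm_eq_abs] at h3
    exact h3.trans h4
  rw [bilT_apply, map_sub, map_smul, map_smul, h1, smul_eq_mul, smul_eq_mul, Real.norm_eq_abs]
  have h3 : x s * x s * f 1 - 1 / 2 * f 1 = (x s * x s - 1 / 2) * f 1 := by ring
  rw [h3, abs_mul]
  have h4 : |x s * x s - 1 / 2| ≤ 1 / 2 := by
    have h5 := hxt s
    rw [abs_le] at h5 ⊢
    constructor <;> nlinarith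
  calc |x s * x s - 1 / 2| * |f 1| ≤ 1 / 2 * 1 :=
        mul_le_mul h4 h2 (abs_nonneg _) (by norm_num)
    _ = 1 / 2 := by norm_num

/-- evaluation at `t` -/
lemma eval_norm_le (t : K) : ‖(evalCLM ℝ t : C(K, ℝ) →L[ℝ] ℝ)‖ ≤ 1 := by
  refine ContinuousLinearMap.opNorm_le_bound _ zero_le_one fun x => ?_
  rw [one_mul]
  exact x.norm_coe_le_norm t

/-- the value of a polynomial at a point where the modulus of `y` is one -/
lemma peak (B : C(K, ℝ) →L[ℝ] C(K, ℝ) →L[ℝ] C(K, ℝ)) (t : K) (y : C(K, ℝ)) (hy : ‖y‖ ≤ 1)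
    (hyt : |y t| = 1) : |B y y t| ≤ numRadius B := by
  have hn : ‖y‖ = 1 := by
    refine le_antisymm hy ?_
    have := y.norm_coe_le_norm t
    rwa [Real.norm_eq_abs, hyt] at this
  have h := le_numRadius B (y t • (evalCLM ℝ t : C(K, ℝ) →L[ℝ] ℝ)) ?_ y ?_
  · rw [hn] at h
    simp only [FunLike.coe_smul, Pi.smul_apply, smul_eq_mul, norm_mul,
      Real.norm_eq_abs, hyt, one_mul, one_pow, mul_one] at h
    exact h
  · rw [norm_smul, Real.norm_eq_abs, hyt, one_mul]
    refine ContinuousLinearMap.opNorm_le_bound _ zero_le_one fun x => ?_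
    rw [one_mul]
    exact x.norm_coe_le_norm t
  · rw [hn]
    change y t * y t = 1
    rw [← abs_mul_abs_self, hyt, one_mul]

lemma le_two_numRadius (B : C(K, ℝ) →L[ℝ] C(K, ℝ) →L[ℝ] C(K, ℝ)) (x : C(K, ℝ))
    (hx : ‖x‖ = 1) : ‖B x x‖ ≤ 2 * numRadius B := by
  have hv := numRadius_nonneg B
  have hxt : ∀ t, |x t| ≤ 1 := fun t => by
    have := x.norm_coe_le_norm t
    rwa [hx, Real.norm_eq_abs] at this
  rw [norm_le _ (by linarith)]
  intro t
  rw [Real.norm_eq_abs]
  rcases (hxt t).eq_or_lt with h1 | h1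
  · have := peak B t x hx.le h1
    linarith
  · rw [abs_lt] at h1
    have p1 : 0 < 1 - x t := by linarith
    have p2 : 0 < 1 + x t := by linarith
    -- the bump
    let h : C(K, ℝ) := ⟨fun y => min 1 (min ((1 - x y) / (1 - x t)) ((1 + x y) / (1 + x t))),
      by fun_prop (disch := exact fun _ => by positivity)⟩
    have hh : ∀ y, h y = min 1 (min ((1 - x y) / (1 - x t)) ((1 + x y) / (1 + x t))) :=
      fun y => rfl
    have ht : h t = 1 := by
      rw [hh, div_self p1.ne', div_self p2.ne']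
      simp
    have h0 : ∀ y, 0 ≤ h y := by
      intro y
      have := hxt y
      rw [abs_le] at this
      rw [hh]
      refine le_min zero_le_one (le_min (div_nonneg ?_ p1.le) (div_nonneg ?_ p2.le)) <;> linarith
    have h1' : ∀ y, h y ≤ 1 := fun y => by rw [hh]; exact min_le_left _ _
    have h2 : ∀ y, (1 - x t) * h y ≤ 1 - x y := by
      intro y
      have : h y ≤ (1 - x y) / (1 - x t) := by
        rw [hh]; exact (min_le_right _ _).trans (min_le_left _ _)
      rw [le_div_iff₀ p1] at this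
      linarith
    have h3 : ∀ y, (1 + x t) * h y ≤ 1 + x y := by
      intro y
      have : h y ≤ (1 + x y) / (1 + x t) := by
        rw [hh]; exact (min_le_right _ _).trans (min_le_right _ _)
      rw [le_div_iff₀ p2] at this
      linarith
    set a : C(K, ℝ) := x + (1 - x t) • h with ha
    set b : C(K, ℝ) := x - (1 + x t) • h with hb
    have hat : a t = 1 := by simp [ha, ht]
    have hbt : b t = -1 := by simp [hb, ht]
    have han : ‖a‖ ≤ 1 := by
      rw [norm_le _ zero_le_one]
      intro y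
      have e1 : a y = x y + (1 - x t) * h y := by simp [ha]
      rw [e1, Real.norm_eq_abs, abs_le]
      have := hxt y
      rw [abs_le] at this
      exact ⟨by nlinarith [h0 y, h2 y], by linarith [h2 y]⟩
    have hbn : ‖b‖ ≤ 1 := by
      rw [norm_le _ zero_le_one]
      intro y
      have e1 : b y = x y - (1 + x t) * h y := by simp [hb]
      rw [e1, Real.norm_eq_abs, abs_le]
      have := hxt y
      rw [abs_le] at this
      exact ⟨by linarith [h3 y], by nlinarith [h0 y, h3 y]⟩
    have hhn : ‖h‖ ≤ 1 := by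
      rw [norm_le _ zero_le_one]
      intro y
      rw [Real.norm_eq_abs, abs_of_nonneg (h0 y)]
      exact h1' y
    have k1 := peak B t a han (by rw [hat, abs_one])
    have k2 := peak B t b hbn (by rw [hbt, abs_neg, abs_one])
    have k3 := peak B t h hhn (by rw [ht, abs_one])
    have id0 : ∀ c : ℝ, B (x + c • h) (x + c • h) t =
        B x x t + c * (B x h t + B h x t) + c ^ 2 * B h h t := by
      intro c
      have e1 : B (x + c • h) (x + c • h) = B x x + c • B x h + c • B h x + (c ^ 2) • B h h := by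
        rw [map_add, map_smul, map_add, map_smul]
        change (B x x + c • B h x) + c • (B x h + c • B h h) = _
        module
      rw [e1]
      simp only [coe_add, coe_smul, Pi.add_apply, Pi.smul_apply, smul_eq_mul]
      ring
    have hb' : b = x + (-(1 + x t)) • h := by rw [hb]; module
    have id1 : B x x t = (1 + x t) / 2 * B a a t + (1 - x t) / 2 * B b b t -
        (1 - x t ^ 2) * B h h t := by
      rw [ha, hb', id0, id0]
      ring
    rw [id1]
    rw [abs_le] at k1 k2 k3 ⊢
    have q1 : 0 ≤ (1 + x t) / 2 := by linarith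
    have q2 : 0 ≤ (1 - x t) / 2 := by linarith
    have q3 : 0 ≤ 1 - x t ^ 2 := by nlinarith
    have q4 : (1 - x t ^ 2) * numRadius B ≤ numRadius B := by nlinarith [sq_nonneg (x t)]
    have r1 := mul_le_mul_of_nonneg_left k1.1 q1
    have r2 := mul_le_mul_of_nonneg_left k1.2 q1
    have r3 := mul_le_mul_of_nonneg_left k2.1 q2
    have r4 := mul_le_mul_of_nonneg_left k2.2 q2
    have r5 := mul_le_mul_of_nonneg_left k3.1 q3
    have r6 := mul_le_mul_of_nonneg_left k3.2 q3
    constructor <;> linarith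

/-- for real `C(K)`, `K` with at least two points -/
theorem index2_C [T2Space K] [Nontrivial K] : index2 ℝ C(K, ℝ) = 1 / 2 := by
  obtain ⟨s, t, hst⟩ := exists_pair_ne K
  apply le_antisymm
  · exact index2_le (by norm_num) (bilT s) (polyNorm_bilT s)
      (fun x f => numRadius_bilT_le s x f)
  · exact half_le_index2 ⟨bilT s, polyNorm_bilT s⟩ le_two_numRadius

end Pool.Agent.Run7.h828.PolyIndex
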