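import Pool.Agent.Run7.h828.PolyIndex

/-!
# The second polynomial numerical index of `L_1`
-/

set_option autoImplicit false

namespace Pool.Agent.Run7.h828.PolyIndex

open MeasureTheory

/-! ### The upper bound, abstractly -/

section abstract_upper

variable {𝕜 : Type*} [RCLike 𝕜] {X : Type*} [NormedAddCommGroup X] [NormedSpace 𝕜 X]

/-- `(x, y) ↦ (a x / 2 + 2 b x) Q y - (b x / 2 + a x) (y - Q y)` -/
noncomputable def bilL (Q : X →L[𝕜] X) (a b : X →L[𝕜] 𝕜) : X →L[𝕜] X →L[𝕜] X :=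
  ((1 / 2 : 𝕜) • a + (2 : 𝕜) • b).smulRight Q -
    ((1 / 2 : 𝕜) • b + a).smulRight (ContinuousLinearMap.id 𝕜 X - Q)

lemma bilL_apply (Q : X →L[𝕜] X) (a b : X →L[𝕜] 𝕜) (x : X) : bilL Q a b x x =
    (1 / 2 * a x + 2 * b x) • Q x - (1 / 2 * b x + a x) • (x - Q x) := rfl

lemma quad_aux {p q : ℝ} (hp : 0 ≤ p) (hq : 0 ≤ q) (h : p + q = 1) :
    p * |1 / 2 * p - q| + q * |2 * p - 1 / 2 * q| ≤ 1 / 2 := by
  have hq' : q = 1 - p := by linarith
  subst hq'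
  rcases abs_cases (1 / 2 * p - (1 - p)) with ⟨h1, _⟩ | ⟨h1, _⟩ <;>
  rcases abs_cases (2 * p - 1 / 2 * (1 - p)) with ⟨h2, _⟩ | ⟨h2, _⟩ <;>
  rw [h1, h2] <;>
  nlinarith [sq_nonneg (p - 1), sq_nonneg (2 * p - 1), sq_nonneg p]

lemma norm_bilL_le (Q : X →L[𝕜] X) (a b : X →L[𝕜] 𝕜) (hQ : ∀ x, ‖x‖ = ‖Q x‖ + ‖x - Q x‖)
    (ha : ∀ x, ‖a x‖ ≤ ‖Q x‖) (hb : ∀ x, ‖b x‖ ≤ ‖x - Q x‖) (x : X) (hx : ‖x‖ = 1) :
    ‖bilL Q a b x x‖ ≤ 1 := by
  rw [bilL_apply]
  have h1 := hQ x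
  have h2 := ha x
  have h3 := hb x
  have h4 : ‖(1 / 2 * a x + 2 * b x : 𝕜)‖ ≤ 1 / 2 * ‖Q x‖ + 2 * ‖x - Q x‖ := by
    refine (norm_add_le _ _).trans ?_
    rw [norm_mul, norm_mul]
    simp only [one_div, norm_inv, RCLike.norm_ofNat]
    linarith
  have h5 : ‖(1 / 2 * b x + a x : 𝕜)‖ ≤ 1 / 2 * ‖x - Q x‖ + ‖Q x‖ := by
    refine (norm_add_le _ _).trans ?_
    rw [norm_mul]
    simp only [one_div, norm_inv, RCLike.norm_ofNat]
    linarith
  have h6 : ‖(1 / 2 * a x + 2 * b x : 𝕜) • Q x‖ ≤ (1 / 2 * ‖Q x‖ + 2 * ‖x - Q x‖) * ‖Q x‖ := by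
    rw [norm_smul]
    exact mul_le_mul_of_nonneg_right h4 (norm_nonneg _)
  have h7 : ‖(1 / 2 * b x + a x : 𝕜) • (x - Q x)‖ ≤
      (1 / 2 * ‖x - Q x‖ + ‖Q x‖) * ‖x - Q x‖ := by
    rw [norm_smul]
    exact mul_le_mul_of_nonneg_right h5 (norm_nonneg _)
  refine (norm_sub_le _ _).trans ?_
  rw [hx] at h1
  have h8 : ‖x - Q x‖ = 1 - ‖Q x‖ := by linarith
  rw [h8] at h6 h7
  nlinarith [sq_nonneg (2 * ‖Q x‖ - 1)]

lemma polyNorm_bilL (Q : X →L[𝕜] X) (a b : X →L[𝕜] 𝕜) (hQ : ∀ x, ‖x‖ = ‖Q x‖ + ‖x - Q x‖)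
    (ha : ∀ x, ‖a x‖ ≤ ‖Q x‖) (hb : ∀ x, ‖b x‖ ≤ ‖x - Q x‖) (u w : X) (hu : Q u = u)
    (hw : Q w = 0) (hun : ‖u‖ = 1 / 2) (hwn : ‖w‖ = 1 / 2) (hau : a u = 1 / 2)
    (hbw : b w = 1 / 2) : polyNorm (bilL Q a b) = 1 := by
  have haw : a w = 0 := by
    have := ha w
    rw [hw, norm_zero] at this
    exact norm_le_zero_iff.1 this
  have hbu : b u = 0 := by
    have := hb u
    rw [hu, sub_self, norm_zero] at this
    exact norm_le_zero_iff.1 this
  have hQz : Q (u + w) = u := by rw [map_add, hu, hw, add_zero]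
  refine polyNorm_eq_one _ (norm_bilL_le Q a b hQ ha hb) (u + w) ?_ ?_
  · rw [hQ, hQz, add_sub_cancel_left, hun, hwn]
    norm_num
  · have e1 : bilL Q a b (u + w) (u + w) = (5 / 4 : 𝕜) • u - (3 / 4 : 𝕜) • w := by
      rw [bilL_apply, hQz, add_sub_cancel_left, map_add, map_add, hau, hbw, haw, hbu]
      norm_num
    rw [e1, hQ, map_sub, map_smul, map_smul, hu, hw, smul_zero, sub_zero,
      sub_sub_cancel_left, norm_neg, norm_smul, norm_smul, hun, hwn]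
    simp only [norm_div, RCLike.norm_ofNat]
    norm_num

lemma eq_of_add_eq {z₁ z₂ : 𝕜} {p q : ℝ} (h : z₁ + z₂ = 1) (h1 : ‖z₁‖ ≤ p) (h2 : ‖z₂‖ ≤ q)
    (hpq : p + q = 1) : z₁ = (p : 𝕜) := by
  have h3 : RCLike.re z₁ + RCLike.re z₂ = 1 := by
    have := congrArg RCLike.re h
    simpa using this
  have h4 := RCLike.re_le_norm z₁
  have h5 := RCLike.re_le_norm z₂
  have h6 : ‖z₁‖ = p := by linarith
  have h7 : ‖z₁‖ ≤ RCLike.re z₁ := by linarith
  rw [RCLike.norm_le_re_iff_eq_norm, h6] at h7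
  exact h7

lemma numRadius_bilL_le (Q : X →L[𝕜] X) (a b : X →L[𝕜] 𝕜)
    (hQ : ∀ x, ‖x‖ = ‖Q x‖ + ‖x - Q x‖) (ha : ∀ x, ‖a x‖ ≤ ‖Q x‖)
    (hb : ∀ x, ‖b x‖ ≤ ‖x - Q x‖) (x : X) (f : X →L[𝕜] 𝕜) (hx : ‖x‖ = 1) (hf : ‖f‖ = 1)
    (hfx : f x = 1) : ‖f (bilL Q a b x x)‖ ≤ 1 / 2 := by
  have h1 := hQ x
  rw [hx] at h1
  have h2 := f.le_opNorm (Q x)
  have h3 := f.le_opNorm (x - Q x)
  rw [hf, one_mul] at h2 h3
  have h4 : f (Q x) + f (x - Q x) = 1 := by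
    rw [← map_add, add_sub_cancel, hfx]
  have h5 := eq_of_add_eq h4 h2 h3 h1.symm
  have h6 := eq_of_add_eq (by rw [add_comm]; exact h4) h3 h2 (by rw [add_comm]; exact h1.symm)
  rw [bilL_apply, map_sub, map_smul, map_smul, h5, h6, smul_eq_mul, smul_eq_mul]
  set p := ‖Q x‖ with hp
  set q := ‖x - Q x‖ with hq
  have e1 : (1 / 2 * a x + 2 * b x) * (p : 𝕜) - (1 / 2 * b x + a x) * (q : 𝕜) =
      a x * ((1 / 2 * p - q : ℝ) : 𝕜) + b x * ((2 * p - 1 / 2 * q : ℝ) : 𝕜) := by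
    push_cast
    ring
  rw [e1]
  refine (norm_add_le _ _).trans ?_
  rw [norm_mul, norm_mul, RCLike.norm_ofReal, RCLike.norm_ofReal]
  have h7 := quad_aux (norm_nonneg (Q x)) (norm_nonneg (x - Q x)) h1.symm
  have h8 := mul_le_mul_of_nonneg_right (ha x) (abs_nonneg (1 / 2 * p - q))
  have h9 := mul_le_mul_of_nonneg_right (hb x) (abs_nonneg (2 * p - 1 / 2 * q))
  linarith

end abstract_upper

/-! ### The lower bound, abstractly -/

lemma two_vectors {X : Type*} [NormedAddCommGroup X] [NormedSpace ℝ X]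
    (B : X →L[ℝ] X →L[ℝ] X) (F : X →L[ℝ] ℝ) (hF : ‖F‖ ≤ 1) (u w : X) (hu : F u = ‖u‖)
    (hw : F w = ‖w‖) (h : ‖u‖ + ‖w‖ = 1) : |F (B (u - w) (u - w))| ≤ 2 * numRadius B := by
  have hv := numRadius_nonneg B
  have hFz : ∀ z, F z ≤ ‖z‖ := fun z => by
    have h1 := F.le_opNorm z
    have h2 : ‖F‖ * ‖z‖ ≤ 1 * ‖z‖ := mul_le_mul_of_nonneg_right hF (norm_nonneg z)
    rw [one_mul] at h2
    exact (le_abs_self _).trans (h1.trans h2)
  set c := ‖u‖ with hc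
  set d := ‖w‖ with hd
  have hc0 : 0 ≤ c := norm_nonneg u
  have hd0 : 0 ≤ d := norm_nonneg w
  -- combinations
  have comb : ∀ s t : ℝ, 0 ≤ s → 0 ≤ t →
      |F (B (s • u + t • w) (s • u + t • w))| ≤ numRadius B * (s * c + t * d) ^ 2 := by
    intro s t hs ht
    have e1 : F (s • u + t • w) = s * c + t * d := by
      rw [map_add, map_smul, map_smul, hu, hw, smul_eq_mul, smul_eq_mul]
    have e2 : ‖s • u + t • w‖ = s * c + t * d := by
      apply le_antisymm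
      · refine (norm_add_le _ _).trans ?_
        rw [norm_smul, norm_smul, Real.norm_eq_abs, Real.norm_eq_abs, abs_of_nonneg hs,
          abs_of_nonneg ht]
      · rw [← e1]
        exact hFz _
    have := le_numRadius B F hF (s • u + t • w) (by rw [e1, e2]; rfl)
    rw [e2] at this
    exact this
  have expand : ∀ s t : ℝ, F (B (s • u + t • w) (s • u + t • w)) =
      s ^ 2 * F (B u u) + s * t * (F (B u w) + F (B w u)) + t ^ 2 * F (B w w) := by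
    intro s t
    have e1 : B (s • u + t • w) (s • u + t • w) =
        (s ^ 2) • B u u + (s * t) • B u w + (s * t) • B w u + (t ^ 2) • B w w := by
      rw [map_add, map_smul, map_smul, map_add, map_smul, map_smul]
      change s • (s • B u u + t • B w u) + t • (s • B u w + t • B w w) = _
      module
    rw [e1]
    simp only [map_add, map_smul, smul_eq_mul]
    ring
  have e0 : u - w = (1 : ℝ) • u + (-1 : ℝ) • w := by module
  rw [e0, expand]
  have k1 := comb 1 0 zero_le_one le_rfl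
  have k2 := comb 0 1 le_rfl zero_le_one
  have k3 := comb d c hd0 hc0
  rw [expand] at k1 k2 k3
  set P := F (B u u)
  set R := F (B w w)
  set S := F (B u w) + F (B w u)
  set v := numRadius B
  have k1' : |P| ≤ v * c ^ 2 := by
    have : (1 : ℝ) ^ 2 * P + 1 * 0 * S + 0 ^ 2 * R = P := by ring
    rw [this] at k1
    simpa using k1
  have k2' : |R| ≤ v * d ^ 2 := by
    have : (0 : ℝ) ^ 2 * P + 0 * 1 * S + 1 ^ 2 * R = R := by ring
    rw [this] at k2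
    simpa using k2
  rcases hc0.eq_or_lt with h0 | h0
  · have hd1 : d = 1 := by linarith
    have hu0 : u = 0 := norm_eq_zero.1 (by rw [← hc, ← h0])
    have hP : P = 0 := by simp [P, hu0]
    have hS : S = 0 := by simp [S, hu0]
    rw [hP, hS]
    have : (1 : ℝ) ^ 2 * 0 + 1 * (-1) * 0 + (-1) ^ 2 * R = R := by ring
    rw [this]
    rw [hd1] at k2'
    linarith
  rcases hd0.eq_or_lt with h0' | h0'
  · have hc1 : c = 1 := by linarith
    have hw0 : w = 0 := norm_eq_zero.1 (by rw [← hd, ← h0'])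
    have hR : R = 0 := by simp [R, hw0]
    have hS : S = 0 := by simp [S, hw0]
    rw [hR, hS]
    have : (1 : ℝ) ^ 2 * P + 1 * (-1) * 0 + (-1) ^ 2 * 0 = P := by ring
    rw [this]
    rw [hc1] at k1'
    linarith
  have hcd : 0 < c * d := mul_pos h0 h0'
  have hd' : d = 1 - c := by linarith
  have h4 : 4 * (c * d) ≤ 1 := by rw [hd']; nlinarith [sq_nonneg (2 * c - 1)]
  rw [abs_le] at k1' k2' k3 ⊢
  have q1 := mul_le_mul_of_nonneg_left k1'.1 hd0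
  have q2 := mul_le_mul_of_nonneg_left k1'.2 hd0
  have q3 := mul_le_mul_of_nonneg_left k2'.1 hc0
  have q4 := mul_le_mul_of_nonneg_left k2'.2 hc0
  have key : c * d * (1 ^ 2 * P + 1 * (-1) * S + (-1) ^ 2 * R) =
      d * P + c * R - (d ^ 2 * P + d * c * S + c ^ 2 * R) := by
    rw [hd']; ring
  have r1 : d * (v * c ^ 2) + c * (v * d ^ 2) = v * (c * d) := by rw [hd']; ring
  have r2 : v * (d * c + c * d) ^ 2 ≤ v * (c * d) := by
    have : (d * c + c * d) ^ 2 ≤ c * d := by nlinarith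
    exact mul_le_mul_of_nonneg_left this hv
  constructor
  · refine le_of_mul_le_mul_left ?_ hcd
    rw [key]
    nlinarith
  · refine le_of_mul_le_mul_left ?_ hcd
    rw [key]
    nlinarith

end Pool.Agent.Run7.h828.PolyIndex
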