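import Pool.Agent.Run7.h828.PolyIndexL

/-!
# The second polynomial numerical index of `L_1[0,1]`
-/

set_option autoImplicit false

namespace Pool.Agent.Run7.h828.PolyIndex

open MeasureTheory

section general

variable {𝕜 : Type*} [RCLike 𝕜] {Ω : Type*} [MeasurableSpace Ω] {μ : Measure Ω}

/-- restriction of a function to a measurable set -/
noncomputable def restrictFun (s : Set Ω) (hs : MeasurableSet s) (f : Lp 𝕜 1 μ) : Lp 𝕜 1 μ :=
  MemLp.toLp (s.indicator f) ((Lp.memLp f).indicator hs)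

lemma restrictFun_coe (s : Set Ω) (hs : MeasurableSet s) (f : Lp 𝕜 1 μ) :
    restrictFun s hs f =ᵐ[μ] s.indicator f := by
  unfold restrictFun
  exact MemLp.coeFn_toLp _

/-- restriction of a function to a measurable set, linear -/
noncomputable def restrictLin (s : Set Ω) (hs : MeasurableSet s) :
    Lp 𝕜 1 μ →ₗ[𝕜] Lp 𝕜 1 μ where
  toFun f := restrictFun s hs f
  map_add' f g := by
    unfold restrictFun
    rw [← MemLp.toLp_add]
    refine MemLp.toLp_congr _ _ ?_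
    filter_upwards [Lp.coeFn_add f g] with t ht
    by_cases h : t ∈ s
    · rw [Set.indicator_of_mem h, Pi.add_apply, Set.indicator_of_mem h,
        Set.indicator_of_mem h, ht, Pi.add_apply]
    · simp [Set.indicator_of_notMem h]
  map_smul' c f := by
    unfold restrictFun
    rw [RingHom.id_apply, ← MemLp.toLp_const_smul]
    refine MemLp.toLp_congr _ _ ?_
    filter_upwards [Lp.coeFn_smul c f] with t ht
    by_cases h : t ∈ s
    · rw [Set.indicator_of_mem h, Pi.smul_apply, Set.indicator_of_mem h, ht, Pi.smul_apply]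
    · simp [Set.indicator_of_notMem h]

lemma restrictLin_coe (s : Set Ω) (hs : MeasurableSet s) (f : Lp 𝕜 1 μ) :
    restrictLin s hs f =ᵐ[μ] s.indicator f := restrictFun_coe s hs f

lemma sub_restrictLin_coe (s : Set Ω) (hs : MeasurableSet s) (f : Lp 𝕜 1 μ) :
    (f - restrictLin s hs f : Lp 𝕜 1 μ) =ᵐ[μ] sᶜ.indicator f := by
  filter_upwards [Lp.coeFn_sub f (restrictLin s hs f), restrictLin_coe s hs f] with t h1 h2
  rw [h1, Pi.sub_apply, h2]
  by_cases h : t ∈ s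
  · simp [h]
  · simp [h]

lemma norm_indicator_int (s : Set Ω) (hs : MeasurableSet s) (f g : Lp 𝕜 1 μ)
    (h : g =ᵐ[μ] s.indicator f) : ‖g‖ = ∫ t in s, ‖f t‖ ∂μ := by
  rw [L1.norm_eq_integral_norm, ← integral_indicator hs]
  refine integral_congr_ae ?_
  filter_upwards [h] with t ht
  rw [ht]
  exact Set.indicator_comp_of_zero (g := fun z : 𝕜 => ‖z‖) norm_zero ▸ rfl

lemma norm_split (s : Set Ω) (hs : MeasurableSet s) (f : Lp 𝕜 1 μ) :
    ‖f‖ = ‖restrictLin s hs f‖ + ‖f - restrictLin s hs f‖ := by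
  rw [norm_indicator_int s hs f _ (restrictLin_coe s hs f),
    norm_indicator_int sᶜ hs.compl f _ (sub_restrictLin_coe s hs f),
    integral_add_compl hs (L1.integrable_coeFn f).norm, L1.norm_eq_integral_norm]

/-- restriction to a measurable set -/
noncomputable def restrictCLM (s : Set Ω) (hs : MeasurableSet s) :
    Lp 𝕜 1 μ →L[𝕜] Lp 𝕜 1 μ :=
  (restrictLin s hs).mkContinuous 1 fun f => by
    rw [one_mul]
    have := norm_split s hs f
    have h2 := norm_nonneg (f - restrictLin s hs f)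
    linarith

/-- the integral, linear -/
noncomputable def intLin : Lp 𝕜 1 μ →ₗ[𝕜] 𝕜 where
  toFun f := ∫ t, f t ∂μ
  map_add' f g := by
    rw [← integral_add (L1.integrable_coeFn f) (L1.integrable_coeFn g)]
    refine integral_congr_ae ?_
    filter_upwards [Lp.coeFn_add f g] with t ht
    rw [ht, Pi.add_apply]
  map_smul' c f := by
    rw [RingHom.id_apply, ← integral_smul]
    refine integral_congr_ae ?_
    filter_upwards [Lp.coeFn_smul c f] with t ht
    rw [ht, Pi.smul_apply]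

lemma norm_intLin_le (f : Lp 𝕜 1 μ) : ‖intLin (μ := μ) f‖ ≤ ‖f‖ := by
  rw [L1.norm_eq_integral_norm]
  exact norm_integral_le_integral_norm _

/-- the integral -/
noncomputable def intCLM : Lp 𝕜 1 μ →L[𝕜] 𝕜 :=
  intLin.mkContinuous 1 fun f => by
    rw [one_mul]
    exact norm_intLin_le f

lemma norm_intCLM_le (f : Lp 𝕜 1 μ) : ‖(intCLM (μ := μ) f : 𝕜)‖ ≤ ‖f‖ := norm_intLin_le f

lemma intCLM_apply (f : Lp 𝕜 1 μ) : (intCLM (μ := μ) f : 𝕜) = ∫ t, f t ∂μ := rfl

lemma restrictCLM_coe (s : Set Ω) (hs : MeasurableSet s) (f : Lp 𝕜 1 μ) :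
    restrictCLM s hs f =ᵐ[μ] s.indicator f := restrictFun_coe s hs f

lemma norm_split' (s : Set Ω) (hs : MeasurableSet s) (f : Lp 𝕜 1 μ) :
    ‖f‖ = ‖restrictCLM s hs f‖ + ‖f - restrictCLM s hs f‖ := norm_split s hs f

/-- the polynomial with norm one and numerical radius at most `1 / 2` -/
lemma index_bound (s : Set Ω) (hs : MeasurableSet s) (h1 : μ s ≠ ⊤) (h2 : μ sᶜ ≠ ⊤)
    (h1' : μ s ≠ 0) (h2' : μ sᶜ ≠ 0) :
    ∃ B : Lp 𝕜 1 μ →L[𝕜] Lp 𝕜 1 μ →L[𝕜] Lp 𝕜 1 μ, polyNorm B = 1 ∧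
      ∀ (x : Lp 𝕜 1 μ) (f : Lp 𝕜 1 μ →L[𝕜] 𝕜), ‖x‖ = 1 → ‖f‖ = 1 → f x = 1 →
        ‖f (B x x)‖ ≤ 1 / 2 := by
  set Q : Lp 𝕜 1 μ →L[𝕜] Lp 𝕜 1 μ := restrictCLM s hs with hQ
  set a : Lp 𝕜 1 μ →L[𝕜] 𝕜 := intCLM.comp Q with ha
  set b : Lp 𝕜 1 μ →L[𝕜] 𝕜 := intCLM.comp (ContinuousLinearMap.id 𝕜 _ - Q) with hb
  have hQn : ∀ x, ‖x‖ = ‖Q x‖ + ‖x - Q x‖ := norm_split' s hs
  have han : ∀ x, ‖a x‖ ≤ ‖Q x‖ := fun x => norm_intCLM_le (Q x)
  have hbn : ∀ x, ‖b x‖ ≤ ‖x - Q x‖ := fun x => norm_intCLM_le (x - Q x)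
  have r1 : μ.real s ≠ 0 := by
    rw [measureReal_def]
    exact (ENNReal.toReal_pos h1' h1).ne'
  have r2 : μ.real sᶜ ≠ 0 := by
    rw [measureReal_def]
    exact (ENNReal.toReal_pos h2' h2).ne'
  set c : 𝕜 := ((1 / 2 * (μ.real s)⁻¹ : ℝ) : 𝕜) with hc
  set d : 𝕜 := ((1 / 2 * (μ.real sᶜ)⁻¹ : ℝ) : 𝕜) with hd
  set u : Lp 𝕜 1 μ := indicatorConstLp 1 hs h1 c with hu
  set w : Lp 𝕜 1 μ := indicatorConstLp 1 hs.compl h2 d with hw
  have hQu : Q u = u := by
    apply Lp.ext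
    filter_upwards [restrictCLM_coe s hs u, indicatorConstLp_coeFn (p := 1) (hs := hs)
      (hμs := h1) (c := c)] with t e1 e2
    rw [hQ, e1]
    by_cases h : t ∈ s
    · rw [Set.indicator_of_mem h]
    · rw [Set.indicator_of_notMem h, hu, e2, Set.indicator_of_notMem h]
  have hQw : Q w = 0 := by
    apply Lp.ext
    filter_upwards [restrictCLM_coe s hs w, indicatorConstLp_coeFn (p := 1) (hs := hs.compl)
      (hμs := h2) (c := d), Lp.coeFn_zero 𝕜 1 μ] with t e1 e2 e3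
    rw [hQ, e1, e3, Pi.zero_apply]
    by_cases h : t ∈ s
    · rw [Set.indicator_of_mem h, hw, e2, Set.indicator_of_notMem (by simpa using h)]
    · rw [Set.indicator_of_notMem h]
  have hun : ‖u‖ = 1 / 2 := by
    rw [hu, norm_indicatorConstLp one_ne_zero ENNReal.one_ne_top, hc, RCLike.norm_ofReal,
      abs_of_nonneg (by positivity), ENNReal.toReal_one, div_one, Real.rpow_one, mul_assoc,
      inv_mul_cancel₀ r1, mul_one]
  have hwn : ‖w‖ = 1 / 2 := by
    rw [hw, norm_indicatorConstLp one_ne_zero ENNReal.one_ne_top, hd, RCLike.norm_ofReal,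
      abs_of_nonneg (by positivity), ENNReal.toReal_one, div_one, Real.rpow_one, mul_assoc,
      inv_mul_cancel₀ r2, mul_one]
  have hau : a u = 1 / 2 := by
    change intCLM (Q u) = _
    rw [hQu, intCLM_apply, hu, integral_indicatorConstLp, hc, RCLike.real_smul_eq_coe_mul,
      ← RCLike.ofReal_mul, mul_comm, mul_assoc, inv_mul_cancel₀ r1, mul_one, RCLike.ofReal_div,
      RCLike.ofReal_one, RCLike.ofReal_ofNat]
  have hbw : b w = 1 / 2 := by
    change intCLM (w - Q w) = _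
    rw [hQw, sub_zero, intCLM_apply, hw, integral_indicatorConstLp, hd,
      RCLike.real_smul_eq_coe_mul, ← RCLike.ofReal_mul, mul_comm, mul_assoc, inv_mul_cancel₀ r2,
      mul_one, RCLike.ofReal_div, RCLike.ofReal_one, RCLike.ofReal_ofNat]
  exact ⟨bilL Q a b, polyNorm_bilL Q a b hQn han hbn u w hQu hQw hun hwn hau hbw,
    fun x f => numRadius_bilL_le Q a b hQn han hbn x f⟩

end general

/-! ### The lower bound for real scalars -/

section real

variable {Ω : Type*} [MeasurableSpace Ω] {μ : Measure Ω}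

lemma lower_real (B : Lp ℝ 1 μ →L[ℝ] Lp ℝ 1 μ →L[ℝ] Lp ℝ 1 μ) (x : Lp ℝ 1 μ)
    (hx : ‖x‖ = 1) : ‖B x x‖ ≤ 2 * numRadius B := by
  set y := B x x with hy
  set S : Set Ω := {t | 0 ≤ y t} with hS
  set T : Set Ω := {t | 0 ≤ x t} with hT
  have hSm : MeasurableSet S := measurableSet_le measurable_const
    (Lp.stronglyMeasurable y).measurable
  have hTm : MeasurableSet T := measurableSet_le measurable_const
    (Lp.stronglyMeasurable x).measurable
  set U : Set Ω := (S ∩ T) ∪ (Sᶜ ∩ Tᶜ) with hU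
  have hUm : MeasurableSet U := (hSm.inter hTm).union (hSm.compl.inter hTm.compl)
  set R : Lp ℝ 1 μ →L[ℝ] Lp ℝ 1 μ := restrictCLM S hSm with hR
  set F : Lp ℝ 1 μ →L[ℝ] ℝ := intCLM.comp (R - (ContinuousLinearMap.id ℝ _ - R)) with hF
  have hF1 : ∀ f, F f = intCLM (R f - (f - R f)) := fun f => rfl
  have hFn : ‖F‖ ≤ 1 := by
    refine ContinuousLinearMap.opNorm_le_bound _ zero_le_one fun f => ?_
    rw [one_mul, hF1]
    refine (norm_intCLM_le _).trans ?_
    rw [norm_split' S hSm f]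
    exact norm_sub_le _ _
  -- the value of `F`
  have hFv : ∀ f g : Lp ℝ 1 μ, (g =ᵐ[μ] fun t => if t ∈ S then f t else -f t) →
      F f = ∫ t, g t ∂μ := by
    intro f g hg
    rw [hF1, intCLM_apply]
    refine integral_congr_ae ?_
    filter_upwards [Lp.coeFn_sub (R f) (f - R f), restrictCLM_coe S hSm f,
      sub_restrictLin_coe S hSm f, hg] with t h1 h2 h3 h4
    have h3' : (f - R f : Lp ℝ 1 μ) t = Sᶜ.indicator f t := h3
    rw [h1, h4, Pi.sub_apply, h3', hR, h2]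
    by_cases h : t ∈ S
    · simp [h]
    · simp [h]
  have hFeq : ∀ f : Lp ℝ 1 μ, (∀ᵐ t ∂μ, (if t ∈ S then f t else -f t) = ‖f t‖) →
      F f = ‖f‖ := by
    intro f hf
    rw [L1.norm_eq_integral_norm, hF1, intCLM_apply]
    refine integral_congr_ae ?_
    filter_upwards [Lp.coeFn_sub (R f) (f - R f), restrictCLM_coe S hSm f,
      sub_restrictLin_coe S hSm f, hf] with t h1 h2 h3 h4
    have h3' : (f - R f : Lp ℝ 1 μ) t = Sᶜ.indicator f t := h3
    rw [h1, ← h4, Pi.sub_apply, h3', hR, h2]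
    by_cases h : t ∈ S
    · simp [h]
    · simp [h]
  have hFy : F y = ‖y‖ := by
    refine hFeq y (Filter.Eventually.of_forall fun t => ?_)
    by_cases h : t ∈ S
    · rw [if_pos h, Real.norm_eq_abs, abs_of_nonneg h]
    · rw [if_neg h, Real.norm_eq_abs, abs_of_neg (not_le.1 h)]
  set u : Lp ℝ 1 μ := restrictCLM U hUm x with hu
  set w : Lp ℝ 1 μ := -(x - u) with hw
  have hFu : F u = ‖u‖ := by
    refine hFeq u ?_
    filter_upwards [restrictCLM_coe U hUm x] with t h1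
    rw [hu, h1]
    by_cases h : t ∈ U
    · rw [Set.indicator_of_mem h]
      rcases h with ⟨h2, h3⟩ | ⟨h2, h3⟩
      · rw [if_pos h2, Real.norm_eq_abs, abs_of_nonneg h3]
      · have h4 : ¬ (0 ≤ x t) := h3
        rw [if_neg h2, Real.norm_eq_abs, abs_of_neg (not_le.1 h4)]
    · rw [Set.indicator_of_notMem h]
      simp
  have hFw : F w = ‖w‖ := by
    refine hFeq w ?_
    filter_upwards [sub_restrictLin_coe U hUm x, Lp.coeFn_neg (x - u)] with t h1 h2
    have h1' : (x - u : Lp ℝ 1 μ) t = Uᶜ.indicator x t := h1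
    rw [hw, h2, Pi.neg_apply, h1']
    by_cases h : t ∈ U
    · simp [h]
    · rw [Set.indicator_of_mem (by simpa using h)]
      by_cases h2 : t ∈ S
      · have h3 : t ∉ T := fun h3 => h (Or.inl ⟨h2, h3⟩)
        rw [if_pos h2, norm_neg, Real.norm_eq_abs, abs_of_neg (not_le.1 h3)]
      · have h3 : t ∈ T := by
          by_contra h3
          exact h (Or.inr ⟨h2, h3⟩)
        rw [if_neg h2, norm_neg, neg_neg, Real.norm_eq_abs, abs_of_nonneg h3]
  have huw : ‖u‖ + ‖w‖ = 1 := by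
    rw [hw, norm_neg, ← hx]
    exact (norm_split' U hUm x).symm
  have hxuw : u - w = x := by rw [hw]; abel
  have := two_vectors B F hFn u w hFu hFw huw
  rw [hxuw, ← hy, hFy, abs_of_nonneg (norm_nonneg _)] at this
  exact this

end real

/-- Lebesgue measure on `[0, 1]` -/
noncomputable abbrev leb : Measure ℝ := volume.restrict (Set.Icc (0 : ℝ) 1)

lemma leb_half (𝕜 : Type*) [RCLike 𝕜] :
    ∃ B : Lp 𝕜 1 leb →L[𝕜] Lp 𝕜 1 leb →L[𝕜] Lp 𝕜 1 leb, polyNorm B = 1 ∧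
      ∀ (x : Lp 𝕜 1 leb) (f : Lp 𝕜 1 leb →L[𝕜] 𝕜), ‖x‖ = 1 → ‖f‖ = 1 → f x = 1 →
        ‖f (B x x)‖ ≤ 1 / 2 := by
  have h1 : leb (Set.Iic (1 / 2)) = ENNReal.ofReal (1 / 2) := by
    rw [Measure.restrict_apply measurableSet_Iic]
    have : Set.Iic (1 / 2 : ℝ) ∩ Set.Icc 0 1 = Set.Icc 0 (1 / 2) := by
      ext t
      simp only [Set.mem_inter_iff, Set.mem_Iic, Set.mem_Icc]
      constructor
      · rintro ⟨h1, h2, h3⟩
        exact ⟨h2, h1⟩
      · rintro ⟨h1, h2⟩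
        exact ⟨h2, h1, by linarith⟩
    rw [this, Real.volume_Icc]
    norm_num
  have h2 : leb (Set.Iic (1 / 2))ᶜ = ENNReal.ofReal (1 / 2) := by
    rw [Measure.restrict_apply measurableSet_Iic.compl]
    have : (Set.Iic (1 / 2 : ℝ))ᶜ ∩ Set.Icc 0 1 = Set.Ioc (1 / 2) 1 := by
      ext t
      simp only [Set.mem_inter_iff, Set.mem_compl_iff, Set.mem_Iic, Set.mem_Icc, Set.mem_Ioc,
        not_le]
      constructor
      · rintro ⟨h1, h2, h3⟩
        exact ⟨h1, h3⟩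
      · rintro ⟨h1, h2⟩
        exact ⟨h1, by linarith, h2⟩
    rw [this, Real.volume_Ioc]
    norm_num
  have h3 : ENNReal.ofReal (1 / 2) ≠ 0 := by
    rw [Ne, ENNReal.ofReal_eq_zero]
    norm_num
  exact index_bound (Set.Iic (1 / 2)) measurableSet_Iic (by rw [h1]; exact ENNReal.ofReal_ne_top)
    (by rw [h2]; exact ENNReal.ofReal_ne_top) (by rw [h1]; exact h3) (by rw [h2]; exact h3)

theorem index2_L1_le (𝕜 : Type*) [RCLike 𝕜] : index2 𝕜 (Lp 𝕜 1 leb) ≤ 1 / 2 := by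
  obtain ⟨B, h1, h2⟩ := leb_half 𝕜
  exact index2_le (by norm_num) B h1 h2

theorem index2_L1_real : index2 ℝ (Lp ℝ 1 leb) = 1 / 2 := by
  refine le_antisymm (index2_L1_le ℝ) ?_
  obtain ⟨B, h1, -⟩ := leb_half ℝ
  exact half_le_index2 ⟨B, h1⟩ lower_real

end Pool.Agent.Run7.h828.PolyIndex
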